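import Mathlib
import Pool.Agent.H33.PoorF

set_option autoImplicit false

namespace Pool.Agent.Results.MP_d359f0_an.PoorNotMeasure

/-- There is a poor free filter on `ℕ` that is not generated by a statistical measure. -/
theorem result :
    ∃ F : Filter ℕ, ∅ ∉ F ∧ (∀ A : Set ℕ, A.Finite → Aᶜ ∈ F) ∧
      (∀ (Γ : Type) (A : Γ → Set ℕ), (∀ γ, (A γ)ᶜ ∉ F) →
        (∀ γ δ, γ ≠ δ → (A γ ∩ A δ)ᶜ ∈ F) → Countable Γ) ∧
      ¬ ∃ μ : Set ℕ → ℝ, (∀ A, 0 ≤ μ A) ∧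
        (∀ A B, Disjoint A B → μ (A ∪ B) = μ A + μ B) ∧ μ Set.univ = 1 ∧ (∀ k, μ {k} = 0) ∧
        ∀ A, A ∈ F ↔ μ A = 1 := by
  obtain ⟨G, h1, h2, h3, h4⟩ := Pool.Agent.H33.PoorF.main
  exact ⟨G, G.empty_notMem, fun A hA => h2 hA.compl_mem_cofinite, h3,
    fun ⟨μ, a, b, c, _, d⟩ => h4 μ a b c d⟩

end Pool.Agent.Results.MP_d359f0_an.PoorNotMeasure
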